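import Mathlib

/-!
# MP_a6ecd6_co: a `k`-multiplex does not force a `k`-plex

A latin square of order `6` without a transversal, but with a `3`-plex and a `2`-plex, has a
`5`-multiplex and no `5`-plex.
-/

set_option autoImplicit false

namespace Pool.Agent.Results.MP_a6ecd6_co.MultiplexNotPlex

/-- `Q` is a `d`-dimensional latin hypercube of order `n`: when all coordinates but the `i`-th are
fixed, every symbol is produced exactly once. -/
def IsLatinHypercube {d n : ℕ} (Q : (Fin d → Fin n) → Fin n) : Prop :=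
  ∀ (x : Fin d → Fin n) (i : Fin d), Function.Bijective fun a => Q (Function.update x i a)

/-- `Q` has a `k`-multiplex: a multiset of cells (`K x` is the multiplicity of the cell `x`) with
exactly `k` elements in every hyperplane and with exactly `k` elements in every symbol. -/
def HasMultiplex {d n : ℕ} (Q : (Fin d → Fin n) → Fin n) (k : ℕ) : Prop :=
  ∃ K : (Fin d → Fin n) → ℕ,
    (∀ (i : Fin d) (a : Fin n), ∑ x with x i = a, K x = k) ∧
      ∀ s : Fin n, ∑ x with Q x = s, K x = k

/-- `Q` has a `k`-plex: a set of cells with exactly `k` elements in every hyperplane and with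
exactly `k` elements in every symbol. -/
def HasPlex {d n : ℕ} (Q : (Fin d → Fin n) → Fin n) (k : ℕ) : Prop :=
  ∃ K : Finset (Fin d → Fin n),
    (∀ (i : Fin d) (a : Fin n), (K.filter fun x => x i = a).card = k) ∧
      ∀ s : Fin n, (K.filter fun x => Q x = s).card = k

/-- the latin square -/
def L : Fin 6 → Fin 6 → Fin 6 :=
  ![![4, 2, 0, 1, 5, 3], ![5, 4, 1, 3, 0, 2], ![0, 5, 3, 4, 2, 1], ![1, 3, 5, 2, 4, 0],
    ![3, 0, 2, 5, 1, 4], ![2, 1, 4, 0, 3, 5]]

/-- the multiplicities: the union of a `3`-plex and a `2`-plex -/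
def W : Fin 6 → Fin 6 → ℕ :=
  ![![2, 2, 1, 0, 0, 0], ![2, 1, 1, 1, 0, 0], ![1, 1, 2, 0, 0, 1], ![0, 0, 0, 2, 1, 2],
    ![0, 0, 1, 1, 2, 1], ![0, 1, 0, 1, 2, 1]]

/-- the latin square as a two-dimensional latin hypercube -/
def Q (x : Fin 2 → Fin 6) : Fin 6 := L (x 0) (x 1)

set_option synthInstance.maxSize 100000 in
theorem no_transversal : ∀ a b : Fin 6, (b ≠ a ∧ L 1 b ≠ L 0 a) →
    ∀ c : Fin 6, (c ≠ a ∧ c ≠ b ∧ L 2 c ≠ L 0 a ∧ L 2 c ≠ L 1 b) →
    ∀ d : Fin 6, (d ≠ a ∧ d ≠ b ∧ d ≠ c ∧ L 3 d ≠ L 0 a ∧ L 3 d ≠ L 1 b ∧ L 3 d ≠ L 2 c) →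
    ∀ e : Fin 6, (e ≠ a ∧ e ≠ b ∧ e ≠ c ∧ e ≠ d ∧ L 4 e ≠ L 0 a ∧ L 4 e ≠ L 1 b ∧
      L 4 e ≠ L 2 c ∧ L 4 e ≠ L 3 d) →
    ∀ f : Fin 6, (f ≠ a ∧ f ≠ b ∧ f ≠ c ∧ f ≠ d ∧ f ≠ e ∧ L 5 f ≠ L 0 a ∧ L 5 f ≠ L 1 b ∧
      L 5 f ≠ L 2 c ∧ L 5 f ≠ L 3 d) → L 5 f = L 4 e := by
  decide +kernel

theorem no_injective (p : Fin 6 → Fin 6) (hp : Function.Injective p)
    (hs : Function.Injective fun i => L i (p i)) : False := by
  have h : ∀ i j : Fin 6, i ≠ j → p i ≠ p j := fun i j hij h => hij (hp h)
  have h' : ∀ i j : Fin 6, i ≠ j → L i (p i) ≠ L j (p j) := fun i j hij h => hij (hs h)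
  have := no_transversal (p 0) (p 1) ⟨h _ _ (by decide), h' _ _ (by decide)⟩
    (p 2) ⟨h _ _ (by decide), h _ _ (by decide), h' _ _ (by decide), h' _ _ (by decide)⟩
    (p 3) ⟨h _ _ (by decide), h _ _ (by decide), h _ _ (by decide), h' _ _ (by decide),
      h' _ _ (by decide), h' _ _ (by decide)⟩
    (p 4) ⟨h _ _ (by decide), h _ _ (by decide), h _ _ (by decide), h _ _ (by decide),
      h' _ _ (by decide), h' _ _ (by decide), h' _ _ (by decide), h' _ _ (by decide)⟩
    (p 5) ⟨h _ _ (by decide), h _ _ (by decide), h _ _ (by decide), h _ _ (by decide),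
      h _ _ (by decide), h' _ _ (by decide), h' _ _ (by decide), h' _ _ (by decide),
      h' _ _ (by decide)⟩
  exact h' _ _ (by decide) this

/-- the two-dimensional cells as pairs -/
theorem sum_cells (F : Fin 6 → Fin 6 → ℕ) (P : Fin 6 → Fin 6 → Prop) [∀ a b, Decidable (P a b)] :
    ∑ x : Fin 2 → Fin 6 with P (x 0) (x 1), F (x 0) (x 1) =
      ∑ a : Fin 6, ∑ b : Fin 6, if P a b then F a b else 0 := by
  rw [Finset.sum_filter, ← Finset.sum_product',
    ← (finTwoArrowEquiv (Fin 6)).symm.sum_comp]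
  simp [finTwoArrowEquiv, Finset.sum_product]

/-- There are `d ≥ 2`, `n ≥ 1`, `1 ≤ k ≤ n ^ (d - 1)` and a `d`-dimensional latin hypercube of
order `n` that has a `k`-multiplex but no `k`-plex. -/
theorem result : ∃ (d n k : ℕ) (Q : (Fin d → Fin n) → Fin n), 2 ≤ d ∧ 1 ≤ n ∧ 1 ≤ k ∧
    k ≤ n ^ (d - 1) ∧ IsLatinHypercube Q ∧ HasMultiplex Q k ∧ ¬ HasPlex Q k := by
  refine ⟨2, 6, 5, Q, by norm_num, by norm_num, by norm_num, by norm_num, ?_, ?_, ?_⟩
  · have hrow : ∀ a : Fin 6, Function.Bijective fun b => L a b := by decide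
    have hcol : ∀ b : Fin 6, Function.Bijective fun a => L a b := by decide
    intro x i
    fin_cases i
    · simpa [Q] using hcol (x 1)
    · simpa [Q] using hrow (x 0)
  · refine ⟨fun x => W (x 0) (x 1), ?_, ?_⟩
    · intro i a
      fin_cases i
      · have := sum_cells W (fun u _ => u = a)
        simp only [Fin.zero_eta, Fin.isValue]
        rw [this]
        revert a
        decide
      · have := sum_cells W (fun _ v => v = a)
        simp only [Fin.mk_one, Fin.isValue]
        rw [this]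
        revert a
        decide
    · intro s
      refine (sum_cells W (fun u v => L u v = s)).trans ?_
      revert s
      decide
  · rintro ⟨K, hK, hS⟩
    -- the complement has one cell in each row, each column and each symbol
    have hcard : ∀ P : (Fin 2 → Fin 6) → Prop, ∀ _ : DecidablePred P,
        (K.filter P).card = 5 → (Finset.univ.filter P).card = 6 →
        ((Kᶜ).filter P).card = 1 := by
      intro P _ h1 h2
      have h3 := Finset.card_union_of_disjoint
        (Finset.disjoint_filter_filter (disjoint_compl_right : Disjoint K Kᶜ) (p := P) (q := P))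
      rw [← Finset.filter_union, Finset.union_compl] at h3
      omega
    have hrow : ∀ a : Fin 6, ((Kᶜ).filter fun x => x 0 = a).card = 1 := by
      intro a
      refine hcard _ _ (hK 0 a) ?_
      have := sum_cells (fun _ _ => 1) (fun u _ => u = a)
      rw [Finset.card_eq_sum_ones, this]
      revert a
      decide
    have hcol : ∀ a : Fin 6, ((Kᶜ).filter fun x => x 1 = a).card = 1 := by
      intro a
      refine hcard _ _ (hK 1 a) ?_
      have := sum_cells (fun _ _ => 1) (fun _ v => v = a)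
      rw [Finset.card_eq_sum_ones, this]
      revert a
      decide
    have hsym : ∀ s : Fin 6, ((Kᶜ).filter fun x => Q x = s).card = 1 := by
      intro s
      refine hcard _ _ (hS s) ?_
      rw [Finset.card_eq_sum_ones]
      refine (sum_cells (fun _ _ => 1) (fun u v => L u v = s)).trans ?_
      revert s
      decide
    have hex : ∀ a : Fin 6, ∃ b : Fin 6, ![a, b] ∈ Kᶜ := by
      intro a
      obtain ⟨x, hx⟩ := Finset.card_pos.mp (by rw [hrow a]; norm_num :
        0 < ((Kᶜ).filter fun x : Fin 2 → Fin 6 => x 0 = a).card)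
      rw [Finset.mem_filter] at hx
      refine ⟨x 1, ?_⟩
      have : ![a, x 1] = x := by
        ext i
        fin_cases i <;> simp [hx.2]
      rw [this]
      exact hx.1
    choose p hp using hex
    refine no_injective p ?_ ?_
    · intro i j hij
      obtain ⟨z, hz⟩ := Finset.card_eq_one.mp (hcol (p i))
      have h1 : ![i, p i] ∈ ((Kᶜ).filter fun x : Fin 2 → Fin 6 => x 1 = p i) := by
        simp only [Finset.mem_filter]
        exact ⟨hp i, by simp⟩
      have h2 : ![j, p j] ∈ ((Kᶜ).filter fun x : Fin 2 → Fin 6 => x 1 = p i) := by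
        simp only [Finset.mem_filter]
        exact ⟨hp j, by simp [hij]⟩
      rw [hz, Finset.mem_singleton] at h1 h2
      have := congrFun (h1.trans h2.symm) 0
      simpa using this
    · intro i j hij
      obtain ⟨z, hz⟩ := Finset.card_eq_one.mp (hsym (L i (p i)))
      have h1 : ![i, p i] ∈ ((Kᶜ).filter fun x : Fin 2 → Fin 6 => Q x = L i (p i)) := by
        simp only [Finset.mem_filter]
        exact ⟨hp i, by simp [Q]⟩
      have h2 : ![j, p j] ∈ ((Kᶜ).filter fun x : Fin 2 → Fin 6 => Q x = L i (p i)) := by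
        simp only [Finset.mem_filter]
        exact ⟨hp j, by simpa [Q] using hij.symm⟩
      rw [hz, Finset.mem_singleton] at h1 h2
      have := congrFun (h1.trans h2.symm) 0
      simpa using this

end Pool.Agent.Results.MP_a6ecd6_co.MultiplexNotPlex
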